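import Pool.Agent.H31.BOU.Targets2

/-!
# Double recurrence: the number of bad pairs (row BAD)
-/

set_option autoImplicit false

namespace Pool.Agent.H43.BOU

open Finset Pool.Agent.H31.BOU

open Classical in
theorem near_card (C i : ℕ) (m : ℤ) (n : ℕ) :
    ((range n).filter (fun k : ℕ => near C i m 0 (k : ℤ))).card ≤ (2 * C + 1) * 2 ^ i := by
  have h1 : ((range n).filter (fun k : ℕ => near C i m 0 (k : ℤ))).card ≤
      (Ico ((m - C) * 2 ^ i) ((m + 1 + C) * 2 ^ i)).card := by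
    apply card_le_card_of_injOn (fun k : ℕ => (k : ℤ))
    · intro k hk
      have hk2 := (mem_filter.1 (mem_coe.1 hk)).2
      obtain ⟨-, h2, h3⟩ := hk2
      rw [pow_zero, mul_one] at h2 h3
      rw [mem_coe, mem_Ico]
      exact ⟨h2, lt_of_lt_of_le (by linarith) h3⟩
    · intro a _ b _ hab
      have hab2 : (a : ℤ) = b := hab
      exact_mod_cast hab2
  rw [Int.card_Ico] at h1
  refine h1.trans ?_
  have h2 : (m + 1 + C) * 2 ^ i - (m - C) * 2 ^ i = (((2 * C + 1) * 2 ^ i : ℕ) : ℤ) := by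
    push_cast
    ring
  rw [h2, Int.toNat_natCast]

open Classical in
theorem mark {θ : Type} [Fintype θ] (C : ℕ) (Q : Fam θ) (w : θ → ℝ) (hw : ∀ u, 0 ≤ w u)
    (A L : ℝ) (hA : ∑ u, (2 : ℝ) ^ Q.sc u * w u ≤ A) (n : ℕ) :
    (((range n).filter (fun k : ℕ => L < ∑ u ∈ univ.filter
      (fun u => near C (Q.sc u) (Q.mm u) 0 (k : ℤ)), w u)).card : ℝ) * L ≤ (2 * C + 1) * A := by
  set B : Finset ℕ := (range n).filter (fun k : ℕ => L < ∑ u ∈ univ.filter
      (fun u => near C (Q.sc u) (Q.mm u) 0 (k : ℤ)), w u) with hB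
  calc (B.card : ℝ) * L = ∑ _k ∈ B, L := by rw [sum_const, nsmul_eq_mul]
    _ ≤ ∑ k ∈ B, ∑ u ∈ univ.filter (fun u => near C (Q.sc u) (Q.mm u) 0 (k : ℤ)), w u :=
        sum_le_sum fun k hk => (mem_filter.1 hk).2.le
    _ ≤ ∑ k ∈ range n, ∑ u ∈ univ.filter (fun u => near C (Q.sc u) (Q.mm u) 0 (k : ℤ)), w u :=
        sum_le_sum_of_subset_of_nonneg (filter_subset _ _) fun k _ _ =>
          sum_nonneg fun u _ => hw u
    _ = ∑ u, ∑ k ∈ range n, if near C (Q.sc u) (Q.mm u) 0 (k : ℤ) then w u else 0 := by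
        rw [sum_comm]
        exact sum_congr rfl fun k _ => sum_filter _ _
    _ = ∑ u, (((range n).filter (fun k : ℕ => near C (Q.sc u) (Q.mm u) 0 (k : ℤ))).card : ℝ) *
          w u := by
        refine sum_congr rfl fun u _ => ?_
        rw [← sum_filter, sum_const, nsmul_eq_mul]
    _ ≤ ∑ u, ((2 * C + 1) * 2 ^ Q.sc u) * w u := by
        refine sum_le_sum fun u _ => ?_
        refine mul_le_mul_of_nonneg_right ?_ (hw u)
        exact_mod_cast near_card C (Q.sc u) (Q.mm u) n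
    _ = (2 * C + 1) * ∑ u, (2 : ℝ) ^ Q.sc u * w u := by
        rw [mul_sum]
        exact sum_congr rfl fun u _ => by ring
    _ ≤ (2 * C + 1) * A := by gcongr

theorem good_path (hM : T_MON) {ι θ : Type} [Fintype ι] [Fintype θ] (C : ℕ) (q : ℝ) (Q : Fam θ)
    (P : Fam ι) (a b : ℕ) (h : Good C q Q P 0 ((a : ℤ) + b)) (j : ℕ) :
    Good C q Q P j (((a / 2 ^ j : ℕ) : ℤ) + ((b / 2 ^ j : ℕ) : ℤ)) := by
  induction j with
  | zero =>
    rw [pow_zero, Nat.div_one, Nat.div_one]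
    exact h
  | succ j ih =>
    have e1 : ∀ x : ℕ, x / 2 ^ j = 2 * (x / 2 ^ (j + 1)) + (x / 2 ^ j) % 2 := by
      intro x
      rw [pow_succ, ← Nat.div_div_eq_div_mul]
      omega
    have e2 : (((a / 2 ^ j : ℕ) : ℤ) + ((b / 2 ^ j : ℕ) : ℤ)) =
        2 * (((a / 2 ^ (j + 1) : ℕ) : ℤ) + ((b / 2 ^ (j + 1) : ℕ) : ℤ)) +
          (((a / 2 ^ j % 2 + b / 2 ^ j % 2 : ℕ)) : ℤ) := by
      have h1 := e1 a
      have h2 := e1 b
      have h3 : a / 2 ^ j + b / 2 ^ j = 2 * (a / 2 ^ (j + 1) + b / 2 ^ (j + 1)) +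
          (a / 2 ^ j % 2 + b / 2 ^ j % 2) := by omega
      exact_mod_cast h3
    rw [e2] at ih
    refine hM.2.2.2.1 ι θ C q Q P j _ _ (by positivity) ?_ ih
    have h4 : a / 2 ^ j % 2 + b / 2 ^ j % 2 ≤ 2 := by omega
    exact_mod_cast h4

theorem pf_BAD (hM : T_MON) : T_BAD := by
  classical
  intro T
  have hK : (0 : ℝ) < K0 := by unfold K0; positivity
  refine ⟨4 * ((2 * cc T + 1) * K0), by positivity, ?_⟩
  intro ι θ _ _ J q G Q P hH
  have hq : 0 < q := lt_of_lt_of_le one_pos hH.q1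
  set B : Finset ℕ := (range (2 ^ (J + 1))).filter (fun k : ℕ => ¬ Good (cc T) q Q P 0 (k : ℤ))
    with hB
  -- the four conditions
  have hcond : ∀ {η : Type} [Fintype η] (R : Fam η) (w : η → ℝ), (∀ u, 0 ≤ w u) → ∀ (e : ℕ),
      ∑ u, (2 : ℝ) ^ R.sc u * w u ≤ K0 * q ^ e * 2 ^ J →
      (((range (2 ^ (J + 1))).filter (fun k : ℕ => q ^ (e + 1) < ∑ u ∈ univ.filter
        (fun u => near (cc T) (R.sc u) (R.mm u) 0 (k : ℤ)), w u)).card : ℝ) ≤
        (2 * cc T + 1) * K0 * 2 ^ J / q := by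
    intro η _ R w hw e he
    have h1 := mark (cc T) R w hw _ (q ^ (e + 1)) he (2 ^ (J + 1))
    rw [le_div_iff₀ hq]
    have hqe : 0 < q ^ e := pow_pos hq e
    have h2 : (((range (2 ^ (J + 1))).filter (fun k : ℕ => q ^ (e + 1) < ∑ u ∈ univ.filter
        (fun u => near (cc T) (R.sc u) (R.mm u) 0 (k : ℤ)), w u)).card : ℝ) * q * q ^ e ≤
        (2 * cc T + 1) * K0 * 2 ^ J * q ^ e := by
      calc _ = (((range (2 ^ (J + 1))).filter (fun k : ℕ => q ^ (e + 1) < ∑ u ∈ univ.filter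
            (fun u => near (cc T) (R.sc u) (R.mm u) 0 (k : ℤ)), w u)).card : ℝ) *
            q ^ (e + 1) := by rw [pow_succ]; ring
        _ ≤ (2 * (cc T : ℝ) + 1) * (K0 * q ^ e * 2 ^ J) := h1
        _ = _ := by ring
    exact le_of_mul_le_mul_right h2 hqe
  set B1 : Finset ℕ := (range (2 ^ (J + 1))).filter (fun k : ℕ => q ^ (16 + 1) <
    ∑ u ∈ univ.filter (fun u => near (cc T) (Q.sc u) (Q.mm u) 0 (k : ℤ)), (1 : ℝ)) with hB1
  set B2 : Finset ℕ := (range (2 ^ (J + 1))).filter (fun k : ℕ => q ^ (0 + 1) <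
    ∑ u ∈ univ.filter (fun u => near (cc T) (Q.sc u) (Q.mm u) 0 (k : ℤ)), ‖Q.co u‖ ^ 2) with hB2
  set B3 : Finset ℕ := (range (2 ^ (J + 1))).filter (fun k : ℕ => q ^ (64 + 1) <
    ∑ u ∈ univ.filter (fun u => near (cc T) (P.sc u) (P.mm u) 0 (k : ℤ)), (1 : ℝ)) with hB3
  set B4 : Finset ℕ := (range (2 ^ (J + 1))).filter (fun k : ℕ => q ^ (0 + 1) <
    ∑ u ∈ univ.filter (fun u => near (cc T) (P.sc u) (P.mm u) 0 (k : ℤ)), ‖P.co u‖ ^ 2) with hB4
  have c1 : (B1.card : ℝ) ≤ (2 * cc T + 1) * K0 * 2 ^ J / q :=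
    hcond Q (fun _ => 1) (fun _ => zero_le_one) 16 (by simpa using hH.Qn)
  have c2 : (B2.card : ℝ) ≤ (2 * cc T + 1) * K0 * 2 ^ J / q :=
    hcond Q (fun u => ‖Q.co u‖ ^ 2) (fun _ => by positivity) 0 (by simpa using hH.Qe)
  have c3 : (B3.card : ℝ) ≤ (2 * cc T + 1) * K0 * 2 ^ J / q :=
    hcond P (fun _ => 1) (fun _ => zero_le_one) 64 (by simpa using hH.Pn)
  have c4 : (B4.card : ℝ) ≤ (2 * cc T + 1) * K0 * 2 ^ J / q :=
    hcond P (fun u => ‖P.co u‖ ^ 2) (fun _ => by positivity) 0 (by simpa using hH.Pe)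
  have hsub : B ⊆ B1 ∪ B2 ∪ B3 ∪ B4 := by
    intro k hk
    rw [hB, mem_filter] at hk
    obtain ⟨hk1, hk2⟩ := hk
    by_contra hn
    simp only [mem_union, not_or] at hn
    obtain ⟨⟨⟨n1, n2⟩, n3⟩, n4⟩ := hn
    apply hk2
    rw [hB1, mem_filter, not_and, not_lt] at n1
    rw [hB2, mem_filter, not_and, not_lt] at n2
    rw [hB3, mem_filter, not_and, not_lt] at n3
    rw [hB4, mem_filter, not_and, not_lt] at n4
    have m1 := n1 hk1
    have m2 := n2 hk1
    have m3 := n3 hk1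
    have m4 := n4 hk1
    rw [sum_const, nsmul_eq_mul, mul_one] at m1 m3
    rw [zero_add, pow_one] at m2 m4
    exact ⟨m1, m2, m3, m4⟩
  have hBc : (B.card : ℝ) ≤ 4 * ((2 * cc T + 1) * K0 * 2 ^ J / q) := by
    have h1 : B.card ≤ B1.card + B2.card + B3.card + B4.card := by
      refine (card_le_card hsub).trans ?_
      refine (card_union_le _ _).trans ?_
      refine Nat.add_le_add_right ?_ _
      refine (card_union_le _ _).trans ?_
      exact Nat.add_le_add_right (card_union_le _ _) _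
    have h2 : (B.card : ℝ) ≤ B1.card + B2.card + B3.card + B4.card := by exact_mod_cast h1
    linarith
  -- pairs
  have hpair : (((range (2 ^ J) ×ˢ range (2 ^ J)).filter (fun ab : ℕ × ℕ =>
      ∃ j ≤ J, ¬ Good (cc T) q Q P j
        (((ab.1 / 2 ^ j : ℕ) : ℤ) + ((ab.2 / 2 ^ j : ℕ) : ℤ)))).card) ≤ B.card * 2 ^ J := by
    have h1 : (B ×ˢ range (2 ^ J)).card = B.card * 2 ^ J := by
      rw [card_product, card_range]
    rw [← h1]
    apply card_le_card_of_injOn (fun ab : ℕ × ℕ => (ab.1 + ab.2, ab.1))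
    · intro ab hab
      obtain ⟨hab1, j, -, hj⟩ := mem_filter.1 (mem_coe.1 hab)
      rw [mem_product, mem_range, mem_range] at hab1
      rw [mem_coe, mem_product, mem_range, hB, mem_filter, mem_range]
      refine ⟨⟨?_, ?_⟩, hab1.1⟩
      · rw [pow_succ]
        dsimp only
        omega
      · intro hg
        apply hj
        apply good_path hM
        dsimp only at hg
        rw [Nat.cast_add] at hg
        exact hg
    · intro x _ y _ hxy
      have h2 : x.1 + x.2 = y.1 + y.2 := congrArg Prod.fst hxy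
      have h3 : x.1 = y.1 := congrArg Prod.snd hxy
      exact Prod.ext h3 (by omega)
  have hpair' : ((((range (2 ^ J) ×ˢ range (2 ^ J)).filter (fun ab : ℕ × ℕ =>
      ∃ j ≤ J, ¬ Good (cc T) q Q P j
        (((ab.1 / 2 ^ j : ℕ) : ℤ) + ((ab.2 / 2 ^ j : ℕ) : ℤ)))).card : ℕ) : ℝ) ≤
      (B.card : ℝ) * 2 ^ J := by exact_mod_cast hpair
  refine hpair'.trans ?_
  calc (B.card : ℝ) * 2 ^ J ≤ (4 * ((2 * cc T + 1) * K0 * 2 ^ J / q)) * 2 ^ J := by gcongr
    _ = 4 * ((2 * cc T + 1) * K0) / q * 4 ^ J := by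
        rw [show (4 : ℝ) ^ J = 2 ^ J * 2 ^ J by rw [← mul_pow]; norm_num]
        ring

end Pool.Agent.H43.BOU
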