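import Pool.Agent.H31.BOU.Targets1
import Pool.Agent.H31.BOU.Targets2

/-!
# Double recurrence: the sum of the energies (row ENS)
-/

set_option autoImplicit false

namespace Pool.Agent.H43.BOU

open Finset Pool.Agent.H31.BOU

theorem vr_nonneg (φ : ℕ → ℤ → ℂ)
    (h : ∀ j κ, φ (j + 1) κ = (φ j (2 * κ) + 2 * φ j (2 * κ + 1) + φ j (2 * κ + 2)) / 4)
    (j : ℕ) (κ : ℤ) : 0 ≤ vr φ j κ := by
  unfold vr
  rw [h]
  set a := φ j (2 * κ)
  set b := φ j (2 * κ + 1)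
  set c := φ j (2 * κ + 2)
  have h1 : ‖(a + 2 * b + c) / 4‖ ≤ (‖a‖ + 2 * ‖b‖ + ‖c‖) / 4 := by
    rw [norm_div]
    have h4 : ‖(4 : ℂ)‖ = 4 := by norm_num
    rw [h4]
    have h2 : ‖a + 2 * b + c‖ ≤ ‖a‖ + 2 * ‖b‖ + ‖c‖ := by
      calc ‖a + 2 * b + c‖ ≤ ‖a‖ + ‖2 * b‖ + ‖c‖ := norm_add₃_le
        _ = ‖a‖ + 2 * ‖b‖ + ‖c‖ := by
            rw [norm_mul]
            norm_num
    linarith
  have h2 : ‖(a + 2 * b + c) / 4‖ ^ 2 ≤ ((‖a‖ + 2 * ‖b‖ + ‖c‖) / 4) ^ 2 :=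
    pow_le_pow_left₀ (norm_nonneg _) h1 2
  nlinarith [sq_nonneg (‖a‖ - ‖b‖), sq_nonneg (‖b‖ - ‖c‖), sq_nonneg (‖a‖ - ‖c‖)]

/-- the position of the nodes below a block -/
theorem long_pos {r i : ℕ} {m : ℤ} {j : ℕ} {κ c : ℤ} (hr : 2 ≤ r) (hc0 : 0 ≤ c) (hc : c ≤ 2)
    (hj : j < i) (h : long r i m j (2 * κ + c)) :
    κ ∈ Ico (m * 2 ^ (i - (j + 1))) ((m + 1) * 2 ^ (i - (j + 1))) := by
  obtain ⟨h1, h2⟩ := h
  obtain ⟨e, rfl⟩ : ∃ e, i = e + (j + 1) := ⟨i - (j + 1), by omega⟩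
  rw [Nat.add_sub_cancel, mem_Ico]
  have hp : (0 : ℤ) < 2 ^ j := by positivity
  have e1 : ∀ z : ℤ, z * 2 ^ (e + (j + 1)) = (2 * (z * 2 ^ e)) * 2 ^ j := by
    intro z
    rw [pow_add, pow_succ]
    ring
  rw [e1] at h1 h2
  have h3 : 2 * (m * 2 ^ e) ≤ 2 * κ + c - r := le_of_mul_le_mul_right h1 hp
  have h4 : 2 * κ + c + r ≤ 2 * ((m + 1) * 2 ^ e) := le_of_mul_le_mul_right h2 hp
  have h5 : (2 : ℤ) ≤ r := by exact_mod_cast hr
  constructor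
  · linarith
  · linarith

open Classical in
theorem one_piece (hE : T_EN) (hM : T_MON) (hG : T_MG) {ι θ : Type} [Fintype ι] [Fintype θ]
    (T J : ℕ) (q σ : ℝ) (G : ℤ → ℂ) (Q : Fam θ) (P : Fam ι) (_hq : 0 ≤ q) (hσ : 0 ≤ σ) (i : ι)
    (hb : ∀ (j : ℕ) (κ : ℤ),
      (alive (cc T) (rr T) q Q P i j κ → ‖ph G (P.be i) j κ‖ ≤ σ) ∧
      (∀ b : ℤ, 0 ≤ b → b ≤ 2 → alive (cc T) (rr T) q Q P i (j + 1) κ →
        ‖ph G (P.be i) j (2 * κ + b)‖ ≤ σ)) :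
    (∀ j κ, 0 ≤ en1 (cc T) (rr T) q σ G Q P i j κ) ∧
    ∑ j ∈ range J, (2 : ℝ) ^ (j + 1) * ∑ κ ∈ Ico (0 : ℤ) (2 ^ (J - (j + 1) + 1)),
      en1 (cc T) (rr T) q σ G Q P i j κ ≤ 40 * σ ^ 2 * 2 ^ P.sc i := by
  obtain ⟨hM1, hM2, hM3, hM4, hM5⟩ := hM
  obtain ⟨f, hf⟩ : ∃ f : ℕ → ℤ → Prop, ∀ j κ, f j κ ↔
      (far (cc T) (3 / 2 * q ^ 40) Q (P.be i) j κ ∧ Good (cc T) q Q P j κ) :=
    ⟨fun j κ => far (cc T) (3 / 2 * q ^ 40) Q (P.be i) j κ ∧ Good (cc T) q Q P j κ,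
      fun _ _ => Iff.rfl⟩
  have hr : 2 ≤ rr T := by unfold rr; omega
  have hrc : rr T + 2 ≤ cc T := by unfold rr cc; omega
  have hal : ∀ j κ, alive (cc T) (rr T) q Q P i j κ ↔
      (long (rr T) (P.sc i) (P.mm i) j κ ∧ f j κ) := by
    intro j κ
    rw [hf]
    rfl
  have hmart : ∀ j κ, ph G (P.be i) (j + 1) κ = (ph G (P.be i) j (2 * κ) +
      2 * ph G (P.be i) j (2 * κ + 1) + ph G (P.be i) j (2 * κ + 2)) / 4 :=
    fun j κ => hG G (P.be i) j κ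
  have hx : (0 : ℝ) ≤ 3 / 2 * q ^ 40 := by positivity
  obtain ⟨hV, hD, hB⟩ := hE (P.sc i) (P.mm i) (rr T) (ph G (P.be i)) f σ hr hσ hmart
    (by
      intro j κ c hc0 hc h
      rw [hf] at h ⊢
      exact ⟨hM5 θ (cc T) _ Q (P.be i) j κ c hx hc0 hc h.1,
        hM4 ι θ (cc T) q Q P j κ c hc0 hc h.2⟩)
    (by
      intro j κ hl h
      exact (hb j κ).1 ((hal j κ).2 ⟨hl, h⟩))
    (by
      intro j κ c hc0 hc hl h
      exact (hb j κ).2 c hc0 hc ((hal (j + 1) κ).2 ⟨hl, h⟩))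
  set V : ℕ → ℤ → ℝ := fun j κ => if long (rr T) (P.sc i) (P.mm i) (j + 1) κ ∧ f (j + 1) κ then
    vr (ph G (P.be i)) j κ else 0 with hVd
  set D : ℕ → ℤ → ℝ := fun j κ => if long (rr T) (P.sc i) (P.mm i) (j + 1) κ ∧ f (j + 1) κ then
      ((if f j (2 * κ) then 0 else 1) + 2 * (if f j (2 * κ + 1) then 0 else 1)
        + (if f j (2 * κ + 2) then 0 else 1)) / 4 else 0 with hDd
  set B : ℕ → ℤ → ℝ := fun j κ => if long (rr T) (P.sc i) (P.mm i) (j + 1) κ ∧ f (j + 1) κ then 0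
      else ((if long (rr T) (P.sc i) (P.mm i) j (2 * κ) ∧ f j (2 * κ) then 1 else 0)
        + 2 * (if long (rr T) (P.sc i) (P.mm i) j (2 * κ + 1) ∧ f j (2 * κ + 1) then 1 else 0)
        + (if long (rr T) (P.sc i) (P.mm i) j (2 * κ + 2) ∧ f j (2 * κ + 2) then 1 else 0)) / 4
    with hBd
  have hD0 : ∀ j κ, 0 ≤ D j κ := by
    intro j κ
    simp only [hDd]
    split_ifs <;> norm_num
  have hB0 : ∀ j κ, 0 ≤ B j κ := by
    intro j κ
    simp only [hBd]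
    split_ifs <;> norm_num
  have hV0 : ∀ j κ, 0 ≤ V j κ := by
    intro j κ
    simp only [hVd]
    split_ifs
    · exact vr_nonneg _ hmart j κ
    · exact le_rfl
  -- the energy is the sum of the three parts
  have hen : ∀ j κ, en1 (cc T) (rr T) q σ G Q P i j κ =
      V j κ + 16 * σ ^ 2 * D j κ + 4 * σ ^ 2 * B j κ := by
    intro j κ
    unfold en1
    simp only [hVd, hDd, hBd]
    by_cases h : long (rr T) (P.sc i) (P.mm i) (j + 1) κ ∧ f (j + 1) κ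
    · have h' := (hal (j + 1) κ).2 h
      have hc : ∀ c : ℤ, 0 ≤ c → c ≤ 2 → (alive (cc T) (rr T) q Q P i j (2 * κ + c) ↔
          f j (2 * κ + c)) := by
        intro c hc0 hc
        rw [hal]
        exact ⟨fun h2 => h2.2, fun h2 => ⟨hM2 (rr T) _ _ j κ c hr hc0 hc h.1, h2⟩⟩
      have c0 : alive (cc T) (rr T) q Q P i j (2 * κ) ↔ f j (2 * κ) := by
        have := hc 0 le_rfl (by norm_num)
        rwa [add_zero] at this
      have c1 := hc 1 (by norm_num) (by norm_num)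
      have c2 := hc 2 (by norm_num) (by norm_num)
      rw [if_pos h', if_pos h, if_pos h, if_pos h, mul_zero, add_zero]
      simp only [c0, c1, c2]
    · have h' : ¬ alive (cc T) (rr T) q Q P i (j + 1) κ := fun h2 => h ((hal (j + 1) κ).1 h2)
      rw [if_neg h', if_neg h, if_neg h, if_neg h, mul_zero, zero_add, zero_add]
      simp only [hal]
  have hen0 : ∀ j κ, 0 ≤ en1 (cc T) (rr T) q σ G Q P i j κ := by
    intro j κ
    rw [hen]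
    have h1 := hV0 j κ
    have h2 := hD0 j κ
    have h3 := hB0 j κ
    positivity
  refine ⟨hen0, ?_⟩
  -- the support
  have hsupp : ∀ j κ, en1 (cc T) (rr T) q σ G Q P i j κ ≠ 0 → j < P.sc i ∧
      κ ∈ Ico (P.mm i * 2 ^ (P.sc i - (j + 1))) ((P.mm i + 1) * 2 ^ (P.sc i - (j + 1))) := by
    intro j κ hne
    have hchild : ∀ c : ℤ, 0 ≤ c → c ≤ 2 → long (rr T) (P.sc i) (P.mm i) j (2 * κ + c) →
        j < P.sc i ∧
        κ ∈ Ico (P.mm i * 2 ^ (P.sc i - (j + 1))) ((P.mm i + 1) * 2 ^ (P.sc i - (j + 1))) := by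
      intro c hc0 hc hl
      have h1 := ((hM3 (rr T) (P.sc i) (P.mm i) j (2 * κ + c) (cc T) hr hrc).1 hl).1
      exact ⟨h1, long_pos hr hc0 hc h1 hl⟩
    by_cases h : long (rr T) (P.sc i) (P.mm i) (j + 1) κ
    · exact hchild 1 (by norm_num) (by norm_num)
        (hM2 (rr T) _ _ j κ 1 hr (by norm_num) (by norm_num) h)
    · by_cases h0 : long (rr T) (P.sc i) (P.mm i) j (2 * κ + 0)
      · exact hchild 0 le_rfl (by norm_num) h0
      · by_cases h1 : long (rr T) (P.sc i) (P.mm i) j (2 * κ + 1)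
        · exact hchild 1 (by norm_num) (by norm_num) h1
        · by_cases h2 : long (rr T) (P.sc i) (P.mm i) j (2 * κ + 2)
          · exact hchild 2 (by norm_num) (by norm_num) h2
          · exfalso
            apply hne
            rw [add_zero] at h0
            rw [hen]
            simp only [hVd, hDd, hBd]
            rw [if_neg (fun h3 => h h3.1), if_neg (fun h3 => h h3.1), if_neg (fun h3 => h h3.1),
              if_neg (fun h3 => h0 h3.1), if_neg (fun h3 => h1 h3.1), if_neg (fun h3 => h2 h3.1)]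
            norm_num
  set g : ℕ → ℝ := fun j => (2 : ℝ) ^ (j + 1) *
    ∑ κ ∈ Ico (P.mm i * 2 ^ (P.sc i - (j + 1))) ((P.mm i + 1) * 2 ^ (P.sc i - (j + 1))),
      en1 (cc T) (rr T) q σ G Q P i j κ with hg
  have hg0 : ∀ j, 0 ≤ g j := fun j =>
    mul_nonneg (by positivity) (sum_nonneg fun κ _ => hen0 j κ)
  have hstep : ∀ j, (2 : ℝ) ^ (j + 1) * ∑ κ ∈ Ico (0 : ℤ) (2 ^ (J - (j + 1) + 1)),
      en1 (cc T) (rr T) q σ G Q P i j κ ≤ if j < P.sc i then g j else 0 := by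
    intro j
    by_cases hj : j < P.sc i
    · rw [if_pos hj, hg]
      refine mul_le_mul_of_nonneg_left ?_ (by positivity)
      rw [← sum_filter_of_ne (s := Ico (0 : ℤ) (2 ^ (J - (j + 1) + 1)))
        (p := fun κ => κ ∈ Ico (P.mm i * 2 ^ (P.sc i - (j + 1)))
          ((P.mm i + 1) * 2 ^ (P.sc i - (j + 1))))
        (fun κ _ hne => (hsupp j κ hne).2)]
      refine sum_le_sum_of_subset_of_nonneg (fun κ hκ => (mem_filter.1 hκ).2)
        fun κ _ _ => hen0 j κ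
    · rw [if_neg hj]
      refine le_of_eq ?_
      rw [sum_eq_zero, mul_zero]
      intro κ _
      by_contra hne
      exact hj (hsupp j κ hne).1
  have hsum : ∑ j ∈ range J, (2 : ℝ) ^ (j + 1) * ∑ κ ∈ Ico (0 : ℤ) (2 ^ (J - (j + 1) + 1)),
      en1 (cc T) (rr T) q σ G Q P i j κ ≤ ∑ j ∈ range (P.sc i), g j := by
    refine (sum_le_sum fun j _ => hstep j).trans ?_
    rw [← sum_filter]
    refine sum_le_sum_of_subset_of_nonneg (fun j hj => ?_) fun j _ _ => hg0 j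
    exact mem_range.2 (mem_filter.1 hj).2
  refine hsum.trans ?_
  have hsplit : ∑ j ∈ range (P.sc i), g j =
      ∑ j ∈ range (P.sc i), (2 : ℝ) ^ (j + 1) * ∑ κ ∈ Ico (P.mm i * 2 ^ (P.sc i - (j + 1)))
        ((P.mm i + 1) * 2 ^ (P.sc i - (j + 1))), V j κ +
      16 * σ ^ 2 * ∑ j ∈ range (P.sc i), (2 : ℝ) ^ (j + 1) *
        ∑ κ ∈ Ico (P.mm i * 2 ^ (P.sc i - (j + 1)))
        ((P.mm i + 1) * 2 ^ (P.sc i - (j + 1))), D j κ +
      4 * σ ^ 2 * ∑ j ∈ range (P.sc i), (2 : ℝ) ^ (j + 1) *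
        ∑ κ ∈ Ico (P.mm i * 2 ^ (P.sc i - (j + 1)))
        ((P.mm i + 1) * 2 ^ (P.sc i - (j + 1))), B j κ := by
    rw [mul_sum, mul_sum, ← sum_add_distrib, ← sum_add_distrib]
    refine sum_congr rfl fun j _ => ?_
    simp only [hg]
    rw [sum_congr rfl fun κ _ => hen j κ, sum_add_distrib, sum_add_distrib, ← mul_sum, ← mul_sum]
    ring
  rw [hsplit]
  have e1 : 16 * σ ^ 2 * ∑ j ∈ range (P.sc i), (2 : ℝ) ^ (j + 1) *
        ∑ κ ∈ Ico (P.mm i * 2 ^ (P.sc i - (j + 1)))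
        ((P.mm i + 1) * 2 ^ (P.sc i - (j + 1))), D j κ ≤ 16 * σ ^ 2 * 2 ^ P.sc i :=
    mul_le_mul_of_nonneg_left hD (by positivity)
  have e2 : 4 * σ ^ 2 * ∑ j ∈ range (P.sc i), (2 : ℝ) ^ (j + 1) *
        ∑ κ ∈ Ico (P.mm i * 2 ^ (P.sc i - (j + 1)))
        ((P.mm i + 1) * 2 ^ (P.sc i - (j + 1))), B j κ ≤ 4 * σ ^ 2 * 2 ^ P.sc i :=
    mul_le_mul_of_nonneg_left hB (by positivity)
  have e3 : ∑ j ∈ range (P.sc i), (2 : ℝ) ^ (j + 1) *
        ∑ κ ∈ Ico (P.mm i * 2 ^ (P.sc i - (j + 1)))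
        ((P.mm i + 1) * 2 ^ (P.sc i - (j + 1))), V j κ ≤ 20 * σ ^ 2 * 2 ^ P.sc i := hV
  linarith

theorem pf_ENS (hE : T_EN) (hS : T_SQ) (hM : T_MON) (hG : T_MG) : T_ENS := by
  classical
  intro T
  have hK : (0 : ℝ) < K0 := by unfold K0; positivity
  refine ⟨40 * K0, by positivity, ?_⟩
  intro ι θ _ _ J q G Q P σ hH hσ hb
  have hq : 0 ≤ q := zero_le_one.trans hH.q1
  have hone := fun i => one_piece hE hM hG T J q σ G Q P hq hσ i (fun j κ => hb i j κ)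
  have h1 : ∀ j ∈ range J, (4 : ℝ) ^ (j + 1) * ∑ p ∈ range (2 ^ (J - (j + 1))),
      ∑ s ∈ range (2 ^ (J - (j + 1))),
        ∑ i, en1 (cc T) (rr T) q σ G Q P i j ((p : ℤ) + s) ≤
      2 ^ J * (2 ^ (j + 1) * ∑ κ ∈ Ico (0 : ℤ) (2 ^ (J - (j + 1) + 1)),
        ∑ i, en1 (cc T) (rr T) q σ G Q P i j κ) := by
    intro j hj
    have h2 := hS J (j + 1) (fun κ => ∑ i, en1 (cc T) (rr T) q σ G Q P i j κ)
      (mem_range.1 hj) (fun κ => sum_nonneg fun i _ => (hone i).1 j κ)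
    refine h2.trans (le_of_eq ?_)
    ring
  calc ∑ j ∈ range J, (4 : ℝ) ^ (j + 1) * ∑ p ∈ range (2 ^ (J - (j + 1))),
      ∑ s ∈ range (2 ^ (J - (j + 1))),
        ∑ i, en1 (cc T) (rr T) q σ G Q P i j ((p : ℤ) + s)
      ≤ ∑ j ∈ range J, 2 ^ J * (2 ^ (j + 1) * ∑ κ ∈ Ico (0 : ℤ) (2 ^ (J - (j + 1) + 1)),
        ∑ i, en1 (cc T) (rr T) q σ G Q P i j κ) := sum_le_sum h1
    _ = 2 ^ J * ∑ i, ∑ j ∈ range J, (2 : ℝ) ^ (j + 1) *
        ∑ κ ∈ Ico (0 : ℤ) (2 ^ (J - (j + 1) + 1)), en1 (cc T) (rr T) q σ G Q P i j κ := by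
        rw [← mul_sum]
        congr 1
        rw [sum_comm (s := univ)]
        refine sum_congr rfl fun j _ => ?_
        rw [← mul_sum]
        congr 1
        rw [sum_comm]
    _ ≤ 2 ^ J * ∑ i, 40 * σ ^ 2 * 2 ^ P.sc i := by
        gcongr with i _
        exact (hone i).2
    _ = 2 ^ J * (40 * σ ^ 2 * ∑ i, (2 : ℝ) ^ P.sc i) := by
        congr 1
        rw [mul_sum]
    _ ≤ 2 ^ J * (40 * σ ^ 2 * (K0 * q ^ 64 * 2 ^ J)) := by
        gcongr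
        exact hH.Pn
    _ = 40 * K0 * σ ^ 2 * q ^ 64 * 4 ^ J := by
        rw [show (4 : ℝ) ^ J = 2 ^ J * 2 ^ J by rw [← mul_pow]; norm_num]
        ring

end Pool.Agent.H43.BOU
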